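import Pool.Agent.SGL.StmtsG

/-!
# NXV of squad SGL: no two edges cross
-/

noncomputable section

namespace Pool.Agent.SGL.H95

open Pool.Agent.SGE Pool.Agent.SGP Pool.Agent.SGY Pool.Agent.SGD Pool.Agent.SGL

theorem nxv (nxa : NxaStmt) (nxb : NxbStmt) (nxc : NxcStmt) : NxvStmt := by
  intro V a c R s ρ S f hG hi hS p q r t h1 h2
  cases h1 with
  | hh hp hq hs hr hn =>
    cases h2 with
    | hh hp' hq' hs' hr' hn' =>
      exact nxa a c R s ρ S f hG hi hS _ _ _ _ hp hq hp' hq' (Or.inl ⟨hs, hr, hn⟩)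
        (Or.inl ⟨hs', hr', hn'⟩)
    | uu hp' hq' hs' hS' =>
      exact nxa a c R s ρ S f hG hi hS _ _ _ _ hp hq hp' hq' (Or.inl ⟨hs, hr, hn⟩)
        (Or.inr ⟨hs', hS'⟩)
    | cc hc' hq' hs' hn' =>
      exact fun h => nxb a c R s ρ f hG hi _ _ _ hc' hq' hp hq hs' hn' (Or.inl ⟨hs, hr⟩)
        (xs_swap h)
    | aa hp' hn' =>
      exact fun h => nxc a c R s ρ f hG hi _ _ _ hp' hp hq hn' (Or.inl ⟨hs, hr⟩) (xs_swap h)
  | uu hp hq hs hS1 =>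
    cases h2 with
    | hh hp' hq' hs' hr' hn' =>
      exact nxa a c R s ρ S f hG hi hS _ _ _ _ hp hq hp' hq' (Or.inr ⟨hs, hS1⟩)
        (Or.inl ⟨hs', hr', hn'⟩)
    | uu hp' hq' hs' hS' =>
      exact nxa a c R s ρ S f hG hi hS _ _ _ _ hp hq hp' hq' (Or.inr ⟨hs, hS1⟩)
        (Or.inr ⟨hs', hS'⟩)
    | cc hc' hq' hs' hn' =>
      exact fun h => nxb a c R s ρ f hG hi _ _ _ hc' hq' hp hq hs' hn' (Or.inr hs) (xs_swap h)
    | aa hp' hn' =>
      exact fun h => nxc a c R s ρ f hG hi _ _ _ hp' hp hq hn' (Or.inr (Or.inl hs)) (xs_swap h)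
  | cc hc hq hs hn =>
    cases h2 with
    | hh hp' hq' hs' hr' hn' =>
      exact nxb a c R s ρ f hG hi _ _ _ hc hq hp' hq' hs hn (Or.inl ⟨hs', hr'⟩)
    | uu hp' hq' hs' hS' =>
      exact nxb a c R s ρ f hG hi _ _ _ hc hq hp' hq' hs hn (Or.inr hs')
    | cc hc' hq' hs' hn' => exact com (Or.inl rfl)
    | aa hp' hn' =>
      exact fun h => nxc a c R s ρ f hG hi _ _ _ hp' hc hq hn' (Or.inr (Or.inr ⟨rfl, hs⟩))
        (xs_swap h)
  | aa hp hn =>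
    cases h2 with
    | hh hp' hq' hs' hr' hn' =>
      exact nxc a c R s ρ f hG hi _ _ _ hp hp' hq' hn (Or.inl ⟨hs', hr'⟩)
    | uu hp' hq' hs' hS' =>
      exact nxc a c R s ρ f hG hi _ _ _ hp hp' hq' hn (Or.inr (Or.inl hs'))
    | cc hc' hq' hs' hn' =>
      exact nxc a c R s ρ f hG hi _ _ _ hp hc' hq' hn (Or.inr (Or.inr ⟨rfl, hs'⟩))
    | aa hp' hn' => exact com (Or.inr (Or.inr (Or.inr rfl)))

end Pool.Agent.SGL.H95
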